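import Pool.Agent.H89.NV.TU2

/-!
(WC1) the local weights under the Hecke operator at another prime.
-/

set_option autoImplicit false
set_option linter.unusedSectionVars false

open MeasureTheory Set Filter NumberField NumberField.InfinitePlace
open scoped Real

namespace Pool.Agent.H75.NVK

open Pool.Agent.H65.CM4 Pool.Agent.H61.NVK Pool.Agent.H89.NV

section

variable {k : Type} [Field k] [NumberField k]

theorem mle (I J : Ideal (𝓞 k)) : I * J ≤ J := Ideal.mul_le_right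

theorem mem_rts {f I A : Ideal (𝓞 k)} {b c j : 𝓞 k} :
    j ∈ rts f I A b c ↔ j ∈ Rs (I * (A * f)) ∧ j ∈ A * f ∧
      j ^ 2 + b * j + c ∈ I * (A * f ^ 2) := by
  classical
  unfold rts
  simp only [Finset.mem_filter]

/-- translation of a root by an element of `I A f`. -/
theorem quad_shift {f I A : Ideal (𝓞 k)} {b c x z : 𝓞 k} (hb : b ∈ f) (hx : x ∈ A * f)
    (hz : z ∈ I * (A * f)) (h : x ^ 2 + b * x + c ∈ I * (A * f ^ 2)) :
    (x + z) ^ 2 + b * (x + z) + c ∈ I * (A * f ^ 2) := by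
  have hAf : A * f ≤ f := (mle _ _)
  have hIAf : I * (A * f) ≤ A * f := (mle _ _)
  have h1 : z * (2 * x + b + z) ∈ I * (A * f) * f := by
    apply Ideal.mul_mem_mul hz
    exact Ideal.add_mem _ (Ideal.add_mem _ (Ideal.mul_mem_left _ _ (hAf hx)) hb) (hAf (hIAf hz))
  have h2 : I * (A * f) * f = I * (A * f ^ 2) := by
    rw [pow_two, mul_assoc, mul_assoc]
  rw [h2] at h1
  have h3 : (x + z) ^ 2 + b * (x + z) + c = (x ^ 2 + b * x + c) + z * (2 * x + b + z) := by ring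
  rw [h3]
  exact Ideal.add_mem _ h h1

/-- two ideals with a relation `p + i = 1`. -/
theorem cop_mem {P I J : Ideal (𝓞 k)} {p i x : 𝓞 k} (hp : p ∈ P) (hi : i ∈ I) (hpi : p + i = 1)
    (h1 : x ∈ P * J) (h2 : x ∈ I * J) : x ∈ I * (P * J) := by
  have h3 : p * x ∈ P * (I * J) := Ideal.mul_mem_mul hp h2
  have h4 : i * x ∈ I * (P * J) := Ideal.mul_mem_mul hi h1
  have h5 : P * (I * J) = I * (P * J) := by rw [← mul_assoc, ← mul_assoc, mul_comm P I]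
  rw [h5] at h3
  have h6 : x = p * x + i * x := by rw [← add_mul, hpi, one_mul]
  rw [h6]
  exact Ideal.add_mem _ h3 h4

end

section

variable (k : Type) [Field k] [NumberField k] [IsTotallyReal k]

theorem nr_cop (hRSB : T_RSB k) {f I P A : Ideal (𝓞 k)} {b c : 𝓞 k} (hf : f ≠ ⊥) (hI : I ≠ ⊥)
    (hP : P ≠ ⊥) (hA : A ≠ ⊥) {p i : 𝓞 k} (hp : p ∈ P) (hi : i ∈ I) (hpi : p + i = 1)
    (hb : b ∈ f) (hc : c ∈ P * A * f ^ 2) : nr f I A b c = nr f I (P * A) b c := by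
  obtain ⟨hR, -, hcard⟩ := hRSB
  have hIAf : I * (A * f) ≠ ⊥ := mul_ne_zero hI (mul_ne_zero hA hf)
  have hIPAf : I * (P * A * f) ≠ ⊥ := mul_ne_zero hI (mul_ne_zero (mul_ne_zero hP hA) hf)
  have l1 : P * A * f ≤ A * f := by
    rw [mul_assoc]
    exact (mle _ _)
  have l2 : I * (P * A * f) ≤ I * (A * f) := Ideal.mul_mono_right l1
  have l3 : I * (P * A * f ^ 2) ≤ I * (A * f ^ 2) := by
    apply Ideal.mul_mono_right
    rw [mul_assoc]
    exact (mle _ _)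
  have l4 : I * (A * f) ≤ A * f := (mle _ _)
  have key : ∑ x ∈ rts f I (P * A) b c, (1 : ℝ) = ∑ x ∈ rts f I A b c, (1 : ℝ) := by
    apply hcard (I * (A * f)) _ _ (fun _ => 1)
    · intro x hx
      obtain ⟨-, hx1, hx2⟩ := mem_rts.1 hx
      obtain ⟨y, ⟨hy1, hy2⟩, hyu⟩ := (hR _ hIAf).1 x
      simp only at hyu
      have hyx : y = x + -(x - y) := by ring
      have hz : -(x - y) ∈ I * (A * f) := (neg_mem_iff).2 hy2
      refine ⟨y, ⟨mem_rts.2 ⟨hy1, ?_, ?_⟩, hy2⟩, ?_⟩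
      · rw [hyx]
        exact Ideal.add_mem _ (l1 hx1) (l4 hz)
      · rw [hyx]
        exact quad_shift hb (l1 hx1) hz (l3 hx2)
      · rintro y' ⟨hy'1, hy'2⟩
        exact hyu y' ⟨(mem_rts.1 hy'1).1, hy'2⟩
    · intro y hy
      obtain ⟨-, hy1, hy2⟩ := mem_rts.1 hy
      -- a point of `P A f`
      have hx1 : p * y ∈ P * A * f := by
        rw [mul_assoc]
        exact Ideal.mul_mem_mul hp hy1
      have hz1 : -(i * y) ∈ I * (A * f) := neg_mem_iff.2 (Ideal.mul_mem_mul hi hy1)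
      have hxy : p * y = y + -(i * y) := by
        have : p * y + i * y = y := by rw [← add_mul, hpi, one_mul]
        linear_combination this
      have hq1 : (p * y) ^ 2 + b * (p * y) + c ∈ I * (A * f ^ 2) := by
        rw [hxy]
        exact quad_shift hb hy1 hz1 hy2
      have hq2 : (p * y) ^ 2 + b * (p * y) + c ∈ P * (A * f ^ 2) := by
        rw [← mul_assoc]
        refine Ideal.add_mem _ (Ideal.add_mem _ ?_ ?_) hc
        · have h1 : (p * y) * (p * y) ∈ P * A * f * f :=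
            Ideal.mul_mem_mul hx1 (mle _ _ hx1)
          rw [pow_two, pow_two, ← mul_assoc]
          exact h1
        · have h1 : (p * y) * b ∈ P * A * f * f := Ideal.mul_mem_mul hx1 hb
          rw [mul_comm b, pow_two, ← mul_assoc]
          exact h1
      have hq : (p * y) ^ 2 + b * (p * y) + c ∈ I * (P * A * f ^ 2) := by
        rw [mul_assoc P A]
        exact cop_mem hp hi hpi hq2 hq1
      obtain ⟨x, ⟨hx2, hx3⟩, hxu⟩ := (hR _ hIPAf).1 (p * y)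
      simp only at hxu
      have hxe : x = p * y + -(p * y - x) := by ring
      have hz2 : -(p * y - x) ∈ I * (P * A * f) := neg_mem_iff.2 hx3
      refine ⟨x, ⟨mem_rts.2 ⟨hx2, ?_, ?_⟩, ?_⟩, ?_⟩
      · rw [hxe]
        exact Ideal.add_mem _ hx1 (mle _ _ hz2)
      · rw [hxe]
        exact quad_shift hb hx1 hz2 hq
      · have h1 : x - y = -(p * y - x) + -(i * y) := by
          linear_combination hxy
        rw [h1]
        exact Ideal.add_mem _ (l2 hz2) hz1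
      · rintro x' ⟨hx'1, hx'2⟩
        obtain ⟨h1, h2, -⟩ := mem_rts.1 hx'1
        apply hxu x' ⟨h1, ?_⟩
        have h3 : p * y - x' ∈ P * (A * f) := by
          rw [← mul_assoc]
          exact Ideal.sub_mem _ hx1 h2
        have h4 : p * y - x' ∈ I * (A * f) := by
          have h5 : p * y - x' = -(x' - y) + -(i * y) := by linear_combination hxy
          rw [h5]
          exact Ideal.add_mem _ (neg_mem_iff.2 hx'2) hz1
        have h6 := cop_mem hp hi hpi h3 h4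
        rwa [← mul_assoc P A] at h6
    · intro x y _
      rfl
  rw [Finset.sum_const, Finset.sum_const, nsmul_eq_mul, nsmul_eq_mul, mul_one, mul_one] at key
  have h1 : (rts f I (P * A) b c).card = (rts f I A b c).card := by exact_mod_cast key
  exact h1.symm

/-- translations do not change the number of roots. -/
theorem nr_trans (hTRV : T_TRV k) {f I A : Ideal (𝓞 k)} {D b j : 𝓞 k} (hf : f ≠ ⊥) (hI : I ≠ ⊥)
    (hF : Fm f D A b) (hj : j ∈ A * f) :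
    nr f I A (b + 2 * j) (j ^ 2 + b * j + q4 (b ^ 2 + D)) = nr f I A b (q4 (b ^ 2 + D)) := by
  obtain ⟨-, -, -, h, -⟩ := hTRV f A D b hf hF
  obtain ⟨-, h2, h3⟩ := h j hj
  have h4 := h3 I (fun _ => 1) hI (fun _ _ _ => rfl)
  rw [Finset.sum_const, Finset.sum_const, nsmul_eq_mul, nsmul_eq_mul, mul_one, mul_one, h2] at h4
  unfold Pool.Agent.H89.NV.nr
  exact_mod_cast h4

/-- different primes. -/
theorem cop_of_ne {P Q : PrI k} (h : P ≠ Q) : IsCoprime Q.1 P.1 := by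
  obtain ⟨P, hP, hP0⟩ := P
  obtain ⟨Q, hQ, hQ0⟩ := Q
  have hmP : P.IsMaximal := hP.isMaximal hP0
  have hmQ : Q.IsMaximal := hQ.isMaximal hQ0
  rw [Ideal.isCoprime_iff_sup_eq]
  apply hmQ.coprime_of_ne hmP
  intro h1
  apply h
  exact Subtype.ext h1.symm

theorem dvd_mul_iff {I P A : Ideal (𝓞 k)} (h : IsCoprime I P) : I ∣ P * A ↔ I ∣ A :=
  ⟨fun h1 => h.dvd_of_dvd_mul_left h1, fun h1 => h1.mul_left P⟩

theorem cop_elt {I P : Ideal (𝓞 k)} (h : IsCoprime I P) : ∃ p ∈ P, ∃ i ∈ I, p + i = 1 := by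
  obtain ⟨i, hi, p, hp, h1⟩ := Ideal.isCoprime_iff_exists.1 h
  exact ⟨p, hp, i, hi, by rw [add_comm]; exact h1⟩

theorem nr_cop' (hRSB : T_RSB k) {f I P A : Ideal (𝓞 k)} {b c : 𝓞 k} (hf : f ≠ ⊥) (hI : I ≠ ⊥)
    (hP : P ≠ ⊥) (hA : A ≠ ⊥) (hcop : IsCoprime I P)
    (hb : b ∈ f) (hc : c ∈ P * A * f ^ 2) : nr f I A b c = nr f I (P * A) b c := by
  obtain ⟨p, hp, i, hi, hpi⟩ := cop_elt k hcop
  exact nr_cop k hRSB hf hI hP hA hp hi hpi hb hc

/-- the weights do not change when `A` is replaced by `P A`. -/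
theorem NN_cop (hRSB : T_RSB k) (hIDL : T_IDL k) {f e A : Ideal (𝓞 k)} {P Q : PrI k}
    {b c : 𝓞 k} (hf : f ≠ ⊥) (hPQ : P ≠ Q) (hA : A ≠ ⊥) (hb : b ∈ f)
    (hc : c ∈ P.1 * A * f ^ 2) :
    N1 f Q.1 e A b c = N1 f Q.1 e (P.1 * A) b c ∧ N2 f Q.1 e A b c = N2 f Q.1 e (P.1 * A) b c := by
  classical
  have hP0 : P.1 ≠ ⊥ := P.2.2
  have hQ0 : Q.1 ≠ ⊥ := Q.2.2
  have hcop : IsCoprime Q.1 P.1 := cop_of_ne k hPQ
  have hcop2 : IsCoprime (Q.1 ^ 2) P.1 := hcop.pow_left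
  have d1 : Q.1 ∣ P.1 * A ↔ Q.1 ∣ A := dvd_mul_iff k hcop
  have d2 : Q.1 ^ 2 ∣ P.1 * A ↔ Q.1 ^ 2 ∣ A := dvd_mul_iff k hcop2
  have n1 := nr_cop' k hRSB hf hQ0 hP0 hA hcop hb hc
  have n2 := nr_cop' k hRSB hf (pow_ne_zero 2 hQ0) hP0 hA hcop2 hb hc
  have n3 : Q.1 ∣ A → nr f Q.1 (dvi A Q.1) b c = nr f Q.1 (dvi (P.1 * A) Q.1) b c := by
    intro hQA
    obtain ⟨hA1, hA2, -⟩ := hIDL.2.1 A Q.1 hA hQA
    have h1 : dvi (P.1 * A) Q.1 = P.1 * dvi A Q.1 := by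
      have h2 : P.1 * A = Q.1 * (P.1 * dvi A Q.1) := by
        rw [← mul_assoc, mul_comm Q.1 P.1, mul_assoc, hA1]
      rw [h2]
      exact hIDL.2.2.1 Q.1 _ hQ0
    rw [h1]
    apply nr_cop' k hRSB hf hQ0 hP0 hA2 hcop hb
    have h2 : P.1 * A * f ^ 2 = Q.1 * (P.1 * dvi A Q.1 * f ^ 2) := by
      rw [← mul_assoc, ← mul_assoc, mul_comm Q.1 P.1, mul_assoc P.1 Q.1, hA1]
    rw [h2] at hc
    exact mle _ _ hc
  constructor
  · unfold N1
    simp only [d1, n1]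
  · unfold N2
    simp only [d1, d2, n1, n2]
    congr 3
    by_cases h : Q.1 ∣ A ∧ Q.1 ∣ e
    · rw [if_pos h, if_pos h, n3 h.1]
    · rw [if_neg h, if_neg h]

/-- translations do not change the weights. -/
theorem NN_trans (hTRV : T_TRV k) (hIDL : T_IDL k) {f e A : Ideal (𝓞 k)} {Q : PrI k}
    {D b j : 𝓞 k} (hf : f ≠ ⊥) (hF : Fm f D A b) (hj : j ∈ A * f) :
    N1 f Q.1 e A (b + 2 * j) (j ^ 2 + b * j + q4 (b ^ 2 + D)) =
        N1 f Q.1 e A b (q4 (b ^ 2 + D)) ∧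
      N2 f Q.1 e A (b + 2 * j) (j ^ 2 + b * j + q4 (b ^ 2 + D)) =
        N2 f Q.1 e A b (q4 (b ^ 2 + D)) := by
  classical
  have hQ0 : Q.1 ≠ ⊥ := Q.2.2
  have n1 := nr_trans k hTRV hf hQ0 hF hj
  have n2 := nr_trans k hTRV hf (pow_ne_zero 2 hQ0 : Q.1 ^ 2 ≠ ⊥) hF hj
  have n3 : Q.1 ∣ A → nr f Q.1 (dvi A Q.1) (b + 2 * j) (j ^ 2 + b * j + q4 (b ^ 2 + D)) =
      nr f Q.1 (dvi A Q.1) b (q4 (b ^ 2 + D)) := by
    intro hQA
    obtain ⟨hA1, hA2, -⟩ := hIDL.2.1 A Q.1 hF.ne hQA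
    apply nr_trans k hTRV hf hQ0 ((hTRV f A D b hf hF).2.2.2.2.2 Q.1 hQA)
    rw [← hA1, mul_assoc] at hj
    exact mle _ _ hj
  constructor
  · unfold N1
    rw [n1]
  · unfold N2
    rw [n1, n2]
    congr 3
    by_cases h : Q.1 ∣ A ∧ Q.1 ∣ e
    · rw [if_pos h, if_pos h, n3 h.1]
    · rw [if_neg h, if_neg h]

/-- the weights do not change when `e` is divided by `P`. -/
theorem NN_e (hIDL : T_IDL k) {f e A : Ideal (𝓞 k)} {P Q : PrI k} {b c : 𝓞 k} (hPQ : P ≠ Q)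
    (he : e ≠ ⊥) (hPe : P.1 ∣ e) :
    N1 f Q.1 (dvi e P.1) A b c = N1 f Q.1 e A b c ∧
      N2 f Q.1 (dvi e P.1) A b c = N2 f Q.1 e A b c := by
  classical
  obtain ⟨he1, he2, -⟩ := hIDL.2.1 e P.1 he hPe
  have hcop : IsCoprime Q.1 P.1 := cop_of_ne k hPQ
  have hcop2 : IsCoprime (Q.1 ^ 2) P.1 := hcop.pow_left
  have d1 : Q.1 ∣ e ↔ Q.1 ∣ dvi e P.1 := by
    have h := dvd_mul_iff (A := dvi e P.1) k hcop
    rwa [he1] at h
  have d2 : Q.1 ^ 2 ∣ e ↔ Q.1 ^ 2 ∣ dvi e P.1 := by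
    have h := dvd_mul_iff (A := dvi e P.1) k hcop2
    rwa [he1] at h
  unfold N1 N2
  simp only [d1, d2, and_self]

theorem pf_WC1 (hRSB : T_RSB k) (hIDL : T_IDL k) (hTRV : T_TRV k) : T_WC1 k := by
  intro f D P Q e A b hf hPQ he hF
  obtain ⟨-, hq, -, h4, h5, h6⟩ := hTRV f A D b hf hF
  constructor
  · intro hPA
    obtain ⟨hA1, hA2, -⟩ := hIDL.2.1 A P.1 hF.ne hPA
    have h := NN_cop k hRSB hIDL (e := e) (A := dvi A P.1) (P := P) (Q := Q) (b := b)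
      (c := q4 (b ^ 2 + D)) hf hPQ hA2 hF.mem (by rw [hA1]; exact hq)
    rw [hA1] at h
    exact h
  · intro j hj hPe
    obtain ⟨-, hj1, hj2⟩ := mem_rts.1 hj
    have hbj : b + 2 * j ∈ f :=
      Ideal.add_mem _ hF.mem (Ideal.mul_mem_left _ _ (mle _ _ hj1))
    have h := NN_cop k hRSB hIDL (e := dvi e P.1) (A := A) (P := P) (Q := Q) (b := b + 2 * j)
      (c := j ^ 2 + b * j + q4 (b ^ 2 + D)) hf hPQ hF.ne hbj (by rw [mul_assoc]; exact hj2)
    have h7 := NN_trans k hTRV hIDL (e := dvi e P.1) (Q := Q) hf hF hj1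
    have h8 := NN_e k hIDL (f := f) (A := A) (b := b) (c := q4 (b ^ 2 + D)) hPQ he hPe
    exact ⟨by rw [← h.1, h7.1, h8.1], by rw [← h.2, h7.2, h8.2]⟩

end

end Pool.Agent.H75.NVK
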