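import Pool.Agent.H89.NV.TU2
import Pool.Agent.H75.NVK.WC1

/-!
The roots for a product of two ideals, and products of Hecke operators at different primes which
do not divide `A`.
-/

set_option autoImplicit false
set_option linter.unusedSectionVars false

open MeasureTheory Set Filter NumberField NumberField.InfinitePlace
open scoped Real

namespace Pool.Agent.H75.NVK

open Pool.Agent.H65.CM4 Pool.Agent.H61.NVK Pool.Agent.H89.NV

section

variable (k : Type) [Field k] [NumberField k] [IsTotallyReal k]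

/-- uniqueness of the representatives -/
theorem rs_uniq (hRSB : T_RSB k) {I : Ideal (𝓞 k)} (hI : I ≠ ⊥) {x y : 𝓞 k} (hx : x ∈ Rs I)
    (hy : y ∈ Rs I) (h : x - y ∈ I) : x = y := by
  obtain ⟨z, hz, hu⟩ := (hRSB.1 I hI).1 y
  have h1 : x = z := hu x ⟨hx, by
    have : y - x = -(x - y) := by ring
    rw [this]
    exact neg_mem_iff.2 h⟩
  have h2 : y = z := hu y ⟨hy, by simp⟩
  rw [h1, h2]

/-- the roots for a product -/
theorem rts_mul (hRSB : T_RSB k) {f I P A : Ideal (𝓞 k)} {b c : 𝓞 k} (hf : f ≠ ⊥) (hI : I ≠ ⊥)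
    (hP : P ≠ ⊥) (hA : A ≠ ⊥) (hb : b ∈ f) (g : 𝓞 k → ℝ)
    (hg : ∀ x, ∀ y ∈ I * (P * A * f), g (x + y) = g x) :
    ∑ j ∈ rts f P A b c, ∑ i ∈ rts f I (P * A) (b + 2 * j) (j ^ 2 + b * j + c), g (j + i) =
      ∑ x ∈ rts f (I * P) A b c, g x := by
  classical
  have hR := hRSB.1
  have hcard := hRSB.2.2
  have m1 : P * (A * f) ≠ ⊥ := mul_ne_zero hP (mul_ne_zero hA hf)
  have m2 : I * (P * A * f) ≠ ⊥ := mul_ne_zero hI (mul_ne_zero (mul_ne_zero hP hA) hf)
  have e1 : I * P * (A * f) = I * (P * A * f) := by rw [mul_assoc, mul_assoc]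
  have e2 : I * P * (A * f ^ 2) = I * (P * A * f ^ 2) := by rw [mul_assoc, mul_assoc]
  have e3 : P * A * f = P * (A * f) := mul_assoc _ _ _
  have l1 : P * (A * f) ≤ A * f := mle _ _
  have l2 : A * f ≤ f := mle _ _
  have l3 : I * (P * A * f) ≤ P * (A * f) := by rw [e3]; exact mle _ _
  have hinj : ∀ j ∈ rts f P A b c, ∀ j' ∈ rts f P A b c,
      ∀ i ∈ rts f I (P * A) (b + 2 * j) (j ^ 2 + b * j + c),
      ∀ i' ∈ rts f I (P * A) (b + 2 * j') (j' ^ 2 + b * j' + c), ∀ z ∈ P * (A * f),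
      j + i - (j' + i') = z → j = j' := by
    intro j hj j' hj' i hi i' hi' z hz h
    obtain ⟨hj1, -, -⟩ := mem_rts.1 hj
    obtain ⟨hj'1, -, -⟩ := mem_rts.1 hj'
    obtain ⟨-, hi2, -⟩ := mem_rts.1 hi
    obtain ⟨-, hi'2, -⟩ := mem_rts.1 hi'
    rw [e3] at hi2 hi'2
    apply rs_uniq k hRSB m1 hj1 hj'1
    have h1 : j - j' = z - i + i' := by rw [← h]; ring
    rw [h1]
    exact Ideal.add_mem _ (Ideal.sub_mem _ hz hi2) hi'2
  have hs : ∑ j ∈ rts f P A b c, ∑ i ∈ rts f I (P * A) (b + 2 * j) (j ^ 2 + b * j + c),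
      g (j + i) = ∑ x ∈ (rts f P A b c).biUnion (fun j =>
        (rts f I (P * A) (b + 2 * j) (j ^ 2 + b * j + c)).image (fun i => j + i)), g x := by
    rw [Finset.sum_biUnion]
    · refine Finset.sum_congr rfl fun j _ => ?_
      rw [Finset.sum_image (fun x _ y _ h => add_left_cancel h)]
    · intro j hj j' hj' hne
      simp only [Function.onFun]
      rw [Finset.disjoint_left]
      intro x hx hx'
      obtain ⟨i, hi, rfl⟩ := Finset.mem_image.1 hx
      obtain ⟨i', hi', h⟩ := Finset.mem_image.1 hx'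
      exact hne (hinj j hj j' hj' i hi i' hi' 0 (Ideal.zero_mem _) (by rw [h]; ring))
  rw [hs]
  apply hcard (I * (P * A * f)) _ _ g _ _ hg
  · intro x hx
    obtain ⟨j, hj, hx⟩ := Finset.mem_biUnion.1 hx
    obtain ⟨i, hi, rfl⟩ := Finset.mem_image.1 hx
    obtain ⟨-, hj1, hj2⟩ := mem_rts.1 hj
    obtain ⟨-, hi1, hi2⟩ := mem_rts.1 hi
    rw [e3] at hi1
    have hx1 : j + i ∈ A * f := Ideal.add_mem _ hj1 (l1 hi1)
    have hx2 : (j + i) ^ 2 + b * (j + i) + c ∈ I * P * (A * f ^ 2) := by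
      rw [e2]
      have : (j + i) ^ 2 + b * (j + i) + c =
          i ^ 2 + (b + 2 * j) * i + (j ^ 2 + b * j + c) := by ring
      rw [this]
      exact hi2
    obtain ⟨y, ⟨hy1, hy2⟩, hyu⟩ := (hR _ m2).1 (j + i)
    simp only at hyu
    have hyx : y = (j + i) + -(j + i - y) := by ring
    have hz : -(j + i - y) ∈ I * P * (A * f) := by
      rw [e1]
      exact neg_mem_iff.2 hy2
    refine ⟨y, ⟨mem_rts.2 ⟨by rw [e1]; exact hy1, ?_, ?_⟩, hy2⟩, ?_⟩
    · rw [hyx]
      exact Ideal.add_mem _ hx1 (mle _ _ hz)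
    · rw [hyx]
      exact quad_shift hb hx1 hz hx2
    · rintro y' ⟨hy'1, hy'2⟩
      apply hyu y' ⟨?_, hy'2⟩
      rw [← e1]
      exact (mem_rts.1 hy'1).1
  · intro y hy
    obtain ⟨-, hy1, hy2⟩ := mem_rts.1 hy
    have hy3 : y ^ 2 + b * y + c ∈ P * (A * f ^ 2) := by
      rw [mul_assoc] at hy2
      exact mle _ _ hy2
    obtain ⟨j, ⟨hj1, hj2⟩, -⟩ := (hR _ m1).1 y
    have hjy : j = y + -(y - j) := by ring
    have hz : -(y - j) ∈ P * (A * f) := neg_mem_iff.2 hj2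
    have hjf : j ∈ A * f := by
      rw [hjy]
      exact Ideal.add_mem _ hy1 (l1 hz)
    have hj : j ∈ rts f P A b c := mem_rts.2 ⟨hj1, hjf, by
      rw [hjy]
      exact quad_shift hb hy1 hz hy3⟩
    have hbj : b + 2 * j ∈ f := Ideal.add_mem _ hb (Ideal.mul_mem_left _ _ (l2 hjf))
    have hi0 : (y - j) ^ 2 + (b + 2 * j) * (y - j) + (j ^ 2 + b * j + c) ∈
        I * (P * A * f ^ 2) := by
      have : (y - j) ^ 2 + (b + 2 * j) * (y - j) + (j ^ 2 + b * j + c) = y ^ 2 + b * y + c := by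
        ring
      rw [this, ← e2]
      exact hy2
    have hi0' : y - j ∈ P * A * f := by
      rw [e3]
      exact hj2
    obtain ⟨i, ⟨hi1, hi2⟩, -⟩ := (hR _ m2).1 (y - j)
    have hiy : i = (y - j) + -(y - j - i) := by ring
    have hz2 : -(y - j - i) ∈ I * (P * A * f) := neg_mem_iff.2 hi2
    have hi : i ∈ rts f I (P * A) (b + 2 * j) (j ^ 2 + b * j + c) := mem_rts.2 ⟨hi1, by
      rw [hiy]
      exact Ideal.add_mem _ hi0' (mle _ _ hz2), by
      rw [hiy]
      exact quad_shift hbj hi0' hz2 hi0⟩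
    refine ⟨j + i, ⟨Finset.mem_biUnion.2 ⟨j, hj, Finset.mem_image.2 ⟨i, hi, rfl⟩⟩, ?_⟩, ?_⟩
    · have : j + i - y = -(y - j - i) := by ring
      rw [this]
      exact hz2
    · rintro x' ⟨hx'1, hx'2⟩
      obtain ⟨j', hj', hx'⟩ := Finset.mem_biUnion.1 hx'1
      obtain ⟨i', hi', rfl⟩ := Finset.mem_image.1 hx'
      have h1 : j' + i' - (j + i) ∈ I * (P * A * f) := by
        have : j' + i' - (j + i) = (j' + i' - y) + (y - j - i) := by ring
        rw [this]
        exact Ideal.add_mem _ hx'2 hi2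
      have h2 : j' = j := hinj j' hj' j hj i' hi' i hi _ (l3 h1) rfl
      subst h2
      have h3 : i' = i := by
        apply rs_uniq k hRSB m2 (mem_rts.1 hi').1 hi1
        have : i' - i = j' + i' - (j' + i) := by ring
        rw [this]
        exact h1
      rw [h3]

/-- there is one root modulo the unit ideal -/
theorem rts_one (hRSB : T_RSB k) {f A : Ideal (𝓞 k)} {b c : 𝓞 k} (hf : f ≠ ⊥) (hA : A ≠ ⊥)
    (hb : b ∈ f) (hc : c ∈ A * f ^ 2) : ∃ j ∈ A * f, rts f 1 A b c = {j} := by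
  have m1 : (1 : Ideal (𝓞 k)) * (A * f) ≠ ⊥ := by
    rw [one_mul]
    exact mul_ne_zero hA hf
  obtain ⟨j, ⟨hj1, hj2⟩, hju⟩ := (hRSB.1 _ m1).1 0
  simp only at hju
  have hj3 : j ∈ A * f := by
    rw [zero_sub, neg_mem_iff, one_mul] at hj2
    exact hj2
  refine ⟨j, hj3, ?_⟩
  ext x
  rw [Finset.mem_singleton]
  constructor
  · intro hx
    obtain ⟨hx1, hx2, -⟩ := mem_rts.1 hx
    apply hju x ⟨hx1, ?_⟩
    rw [zero_sub, neg_mem_iff, one_mul]
    exact hx2
  · rintro rfl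
    refine mem_rts.2 ⟨hj1, hj3, ?_⟩
    rw [one_mul]
    have h1 : x * x ∈ A * f * f := Ideal.mul_mem_mul hj3 (mle _ _ hj3)
    have h2 : x * b ∈ A * f * f := Ideal.mul_mem_mul hj3 hb
    rw [mul_assoc, ← pow_two f] at h1 h2
    rw [pow_two x, mul_comm b]
    exact Ideal.add_mem _ (Ideal.add_mem _ h1 h2) hc

/-- products of Hecke operators at different primes which do not divide `A` -/
theorem TL_rts (hRSB : T_RSB k) (hTRV : T_TRV k) {f : Ideal (𝓞 k)} {D : 𝓞 k} (hf : f ≠ ⊥)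
    (G : Ideal (𝓞 k) → 𝓞 k → ℝ) (hG : ∀ A b, ∀ j ∈ A * f, G A (b + 2 * j) = G A b)
    (l : List (PrI k)) (hl : l.Nodup) : ∀ (A : Ideal (𝓞 k)) (b : 𝓞 k), Fm f D A b →
      (∀ P ∈ l, ¬ P.1 ∣ A) →
      TL f l (fun A b _ => G A b) A b (q4 (b ^ 2 + D)) =
        ∑ j ∈ rts f (l.map (fun P => P.1)).prod A b (q4 (b ^ 2 + D)),
          G ((l.map (fun P => P.1)).prod * A) (b + 2 * j) := by
  classical
  induction l with
  | nil =>
    intro A b hF _
    obtain ⟨-, hq, -⟩ := hTRV f A D b hf hF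
    obtain ⟨j, hj, hr⟩ := rts_one k hRSB hf hF.ne hF.mem hq
    rw [List.map_nil, List.prod_nil, hr, Finset.sum_singleton, one_mul, hG A b j hj]
    rfl
  | cons P l ih =>
    intro A b hF hcop
    obtain ⟨hPl, hl'⟩ := List.nodup_cons.1 hl
    obtain ⟨-, hq, -, -, h5, -⟩ := hTRV f A D b hf hF
    have hP0 : P.1 ≠ ⊥ := P.2.2
    have hPA : ¬ P.1 ∣ A := hcop P (List.mem_cons_self)
    have h1 : TL f (P :: l) (fun A b _ => G A b) A b (q4 (b ^ 2 + D)) =
        ∑ j ∈ rts f P.1 A b (q4 (b ^ 2 + D)), TL f l (fun A b _ => G A b) (P.1 * A) (b + 2 * j)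
          (j ^ 2 + b * j + q4 (b ^ 2 + D)) := by
      show Tp f P.1 (TL f l (fun A b _ => G A b)) A b (q4 (b ^ 2 + D)) = _
      unfold Tp
      rw [if_neg hPA, zero_add]
    have hI : (l.map (fun P => P.1)).prod ≠ ⊥ := by
      apply List.prod_ne_zero
      intro h
      obtain ⟨Q, -, hQ⟩ := List.mem_map.1 h
      exact Q.2.2 hQ
    rw [h1, List.map_cons, List.prod_cons, mul_comm P.1 (l.map (fun P => P.1)).prod]
    rw [← rts_mul k hRSB hf hI hP0 hF.ne hF.mem (fun j =>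
      G ((l.map (fun P => P.1)).prod * P.1 * A) (b + 2 * j)) ?_]
    · refine Finset.sum_congr rfl fun j hj => ?_
      obtain ⟨hF', hq'⟩ := h5 P.1 j hP0 hj
      rw [← hq', ih hl' (P.1 * A) (b + 2 * j) hF' ?_]
      · refine Finset.sum_congr rfl fun i _ => ?_
        rw [mul_assoc]
        congr 1
        ring
      · intro Q hQ hd
        have hPQ : P ≠ Q := fun h => hPl (h ▸ hQ)
        exact hcop Q (List.mem_cons_of_mem _ hQ) ((dvd_mul_iff k (cop_of_ne k hPQ)).1 hd)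
    · intro x y hy
      have : b + 2 * (x + y) = b + 2 * x + 2 * y := by ring
      rw [this, hG]
      have e1 : (l.map (fun P => P.1)).prod * P.1 * A * f =
          (l.map (fun P => P.1)).prod * (P.1 * A * f) := by
        rw [mul_assoc, mul_assoc, mul_assoc]
      rw [e1]
      exact hy

end

end Pool.Agent.H75.NVK
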