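import Pool.Agent.H75.NVK.ZINV
import Pool.Agent.H75.NVK.ROOT
import Pool.Agent.H61.NVK.TargetsE3

/-!
(PZ1) the mollified value of the principal form as a sum over roots.
-/

set_option autoImplicit false
set_option linter.unusedSectionVars false

open MeasureTheory Set Filter NumberField NumberField.InfinitePlace
open scoped Real

namespace Pool.Agent.H75.NVK

open Pool.Agent.H65.CM4 Pool.Agent.H61.NVK Pool.Agent.H89.NV

section

variable (k : Type) [Field k] [NumberField k] [IsTotallyReal k]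

/-- the weight function -/
noncomputable def phi (s t : ℝ) : ℝ := 2 * Vk k (t / s) / Real.sqrt t

theorem phi_bd (hVKF : T_VKF) {s : ℝ} (hs : 0 < s) :
    ∃ C : ℝ, 0 ≤ C ∧ ∀ t : ℝ, 0 ≤ t → |phi k s t| ≤ C / t ^ 2 := by
  obtain ⟨-, -, -, h⟩ := hVKF k
  obtain ⟨C, hC, h1⟩ := h 2
  refine ⟨2 * C * (s + s ^ 2), by positivity, ?_⟩
  intro t ht
  rcases ht.eq_or_lt with rfl | ht
  · simp [phi]
  · have hx : 0 < t / s := div_pos ht hs
    have h2 := (h1 (t / s) hx).1
    have hst : 0 < Real.sqrt t := Real.sqrt_pos.2 ht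
    have h3 : Real.sqrt t ≤ 1 + t := by
      rw [Real.sqrt_le_left (by linarith)]
      nlinarith
    have h4 : Real.sqrt t * Real.sqrt t = t := Real.mul_self_sqrt ht.le
    have h5 : (1 + t / s) ^ (-((2 : ℕ) : ℝ)) = 1 / (1 + t / s) ^ 2 := by
      rw [Real.rpow_neg (by positivity), Real.rpow_natCast, one_div]
    rw [h5] at h2
    have h6 : 0 < 1 + t / s := by positivity
    unfold phi
    rw [abs_div, abs_mul, abs_two, abs_of_pos hst, div_le_div_iff₀ hst (by positivity)]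
    have h7 : |Vk k (t / s)| * (1 + t / s) ^ 2 ≤ C := by
      rw [← le_div_iff₀ (by positivity)]
      refine h2.trans (le_of_eq ?_)
      ring
    have h8 : t * (1 + t) ≤ (s + s ^ 2) * (1 + t / s) ^ 2 := by
      have e1 : t = s * (t / s) := by field_simp
      have hx2 : 0 ≤ t / s := hx.le
      generalize t / s = x at e1 hx2
      subst e1
      nlinarith [mul_nonneg hs.le hx2, mul_nonneg (sq_nonneg s) hx2, mul_nonneg hs.le (sq_nonneg x)]
    have hV := abs_nonneg (Vk k (t / s))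
    calc 2 * |Vk k (t / s)| * t ^ 2 = 2 * |Vk k (t / s)| * (t * Real.sqrt t) * Real.sqrt t := by
          rw [mul_assoc (2 * |Vk k (t / s)|), mul_assoc t, h4]
          ring
      _ ≤ 2 * |Vk k (t / s)| * (t * (1 + t)) * Real.sqrt t := by gcongr
      _ ≤ 2 * |Vk k (t / s)| * ((s + s ^ 2) * (1 + t / s) ^ 2) * Real.sqrt t := by gcongr
      _ = 2 * (|Vk k (t / s)| * (1 + t / s) ^ 2) * (s + s ^ 2) * Real.sqrt t := by ring
      _ ≤ 2 * C * (s + s ^ 2) * Real.sqrt t := by gcongr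

theorem nf_nonneg {D : 𝓞 k} (hD : tp D) (a A f : Ideal (𝓞 k)) (β : Pl k → ℝ) (u : V2 k) :
    0 ≤ nf a A f β (em D) u := by
  unfold nf
  apply div_nonneg
  · unfold qd
    refine Finset.prod_nonneg fun v _ => ?_
    have := (hD v).le
    have h2 : 0 ≤ em D v := this
    positivity
  · unfold nm
    positivity

theorem nu_le (f a A : Ideal (𝓞 k)) (b c : 𝓞 k) (u : V2 k) (m : Finset (PrI k)) :
    ((nu f m a A b c u : ℕ) : ℝ) ≤ ∏ P ∈ m, (1 + ((rts f P.1 A b c).card : ℝ)) := by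
  classical
  unfold nu
  push_cast
  refine Finset.prod_le_prod (fun P _ => by positivity) fun P _ => ?_
  unfold nuP
  push_cast
  apply add_le_add
  · split_ifs <;> norm_num
  · exact_mod_cast Finset.card_filter_le _ _

theorem zf_eq_Vs (f A : Ideal (𝓞 k)) (b D : 𝓞 k) :
    zf A f (em b) (em D) =
      Vs f (fun a A b u => phi k (sd f (em D)) (nf a A f (em b) (em D) u)) A b := by
  classical
  unfold zf Vs
  refine Finset.sum_congr rfl fun c _ => tsum_congr fun u => ?_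
  congr 1
  unfold phi sd
  beta_reduce
  rw [div_div_eq_mul_div]

open Classical in
/-- summability of the terms -/
theorem summ (hGRW : T_GRW k) (hVKF : T_VKF) {f : Ideal (𝓞 k)} {D b : 𝓞 k} (hf : f ≠ ⊥)
    (hD : tp D) (hF : Fm f D ⊤ b) {s N : ℝ} (hs : 0 < s) (hN : 0 < N) (m : Finset (PrI k))
    (a : ClassGroup (𝓞 k)) :
    Summable (fun u : V2 k => if u ∈ Lb (ci a) (⊤ * f) ∧ u ∈ Fo k then
      phi k s (nf (ci a) ⊤ f (em b) (em D) u / N) * nu f m (ci a) ⊤ b (q4 (b ^ 2 + D)) u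
      else 0) := by
  obtain ⟨C, hC, hφ⟩ := phi_bd k hVKF hs
  obtain ⟨_, _, -, hG⟩ := hGRW f D hf hD
  have h1 := (hG ⊤ b hF).1 a
  have h2 : Summable (Set.indicator {u : V2 k | u ∈ Lb (ci a) (⊤ * f) ∧ u ∈ Fo k}
      (fun u : V2 k => 1 / nf (ci a) ⊤ f (em b) (em D) u ^ 2)) :=
    summable_subtype_iff_indicator.1 h1
  set K : ℝ := C * N ^ 2 * ∏ P ∈ m, (1 + ((rts f P.1 ⊤ b (q4 (b ^ 2 + D))).card : ℝ)) with hK
  refine Summable.of_norm_bounded (h2.mul_left K) fun u => ?_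
  rw [Set.indicator_apply]
  by_cases hu : u ∈ Lb (ci a) (⊤ * f) ∧ u ∈ Fo k
  · rw [if_pos hu, if_pos (show u ∈ {u : V2 k | u ∈ Lb (ci a) (⊤ * f) ∧ u ∈ Fo k} from hu),
      Real.norm_eq_abs, abs_mul, Nat.abs_cast]
    have h3 := nf_nonneg k hD (ci a) ⊤ f (em b) u
    have h4 := hφ (nf (ci a) ⊤ f (em b) (em D) u / N) (div_nonneg h3 hN.le)
    have h5 := nu_le k f (ci a) ⊤ b (q4 (b ^ 2 + D)) u m
    have h6 : C / (nf (ci a) ⊤ f (em b) (em D) u / N) ^ 2 =
        C * N ^ 2 * (1 / nf (ci a) ⊤ f (em b) (em D) u ^ 2) := by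
      rw [div_pow, div_div_eq_mul_div]
      ring
    rw [h6] at h4
    calc |phi k s (nf (ci a) ⊤ f (em b) (em D) u / N)| *
          (nu f m (ci a) ⊤ b (q4 (b ^ 2 + D)) u : ℝ)
        ≤ C * N ^ 2 * (1 / nf (ci a) ⊤ f (em b) (em D) u ^ 2) *
          ∏ P ∈ m, (1 + ((rts f P.1 ⊤ b (q4 (b ^ 2 + D))).card : ℝ)) :=
          mul_le_mul h4 h5 (Nat.cast_nonneg _) (by positivity)
      _ = _ := by
          rw [hK]
          ring
  · rw [if_neg hu, if_neg (show u ∉ {u : V2 k | u ∈ Lb (ci a) (⊤ * f) ∧ u ∈ Fo k} from hu)]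
    simp

theorem nS_pos (m : Finset (PrI k)) : 0 < nS m := by
  unfold nS np nm
  refine Finset.prod_pos fun P _ => ?_
  have : Ideal.absNorm P.1 ≠ 0 := by
    rw [Ne, Ideal.absNorm_eq_zero_iff]
    exact P.2.2
  exact_mod_cast Nat.pos_of_ne_zero this

theorem sd_pos {f : Ideal (𝓞 k)} {D : 𝓞 k} (hf : f ≠ ⊥) (hD : tp D) : 0 < sd f (em D) := by
  unfold sd sD
  apply div_pos
  · apply Real.sqrt_pos.2
    exact Finset.prod_pos fun v _ => hD v
  · unfold nm
    have : Ideal.absNorm f ≠ 0 := by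
      rw [Ne, Ideal.absNorm_eq_zero_iff]
      exact hf
    exact_mod_cast Nat.pos_of_ne_zero this

theorem term_eq {c V n q r s : ℝ} (hr : r ≠ 0) :
    c * (2 * V) * n / s = c / r * (2 * V / (s / r) * n) + 0 * q := by
  by_cases hs : s = 0
  · simp [hs]
  · field_simp
    ring

theorem pf_PZ1 (hRSB : T_RSB k) (hTRV : Pool.Agent.H89.NV.T_TRV k) (hHKZ : T_HKZ k)
    (hGRW : T_GRW k) (hVKF : T_VKF) : T_PZ1 k := by
  classical
  intro f D b S c hf hD hb hbD
  have hF : Fm f D ⊤ b := ⟨top_ne_bot, hb, by rw [Ideal.top_mul]; exact hbD⟩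
  have hs := sd_pos k hf hD
  obtain ⟨C, hC, hφ⟩ := phi_bd k hVKF hs
  have key : ∀ m : Finset (PrI k),
      Vs f (fun a A b u => phi k (sd f (em D)) (nf a A f (em b) (em D) u / nS m) *
        nu f m a A b (q4 (b ^ 2 + D)) u) ⊤ b =
      ∑ j ∈ rts f (idS m) ⊤ b (q4 (b ^ 2 + D)), zf (idS m) f (em (b + 2 * j)) (em D) := by
    intro m
    have h1 := hHKZ f D m.toList (phi k (sd f (em D))) hf hD m.nodup_toList
      ⟨C, fun t ht => hφ t ht.le⟩ ⊤ b hF
    rw [Finset.toList_toFinset] at h1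
    rw [← h1]
    have h2 := TL_rts k hRSB hTRV hf (fun A b => zf A f (em b) (em D))
      (fun A b j hj => zf_shear k A f b j D hj) m.toList m.nodup_toList ⊤ b hF (by
        intro P _ h
        exact P.2.1.ne_top (top_le_iff.1 (Ideal.dvd_iff_le.1 h)))
    have h3 : (m.toList.map (fun P => P.1)).prod = idS m := Finset.prod_map_toList m _
    rw [h3, Ideal.mul_top] at h2
    rw [← h2]
    congr 1
    funext A b _
    exact (zf_eq_Vs k f A b D).symm
  have hZ : Zc f S c ⊤ b D = ∑ m ∈ S, c m / Real.sqrt (nS m) *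
      Vs f (fun a A b u => phi k (sd f (em D)) (nf a A f (em b) (em D) u / nS m) *
        nu f m a A b (q4 (b ^ 2 + D)) u) ⊤ b := by
    unfold Zc Vs
    simp only [Finset.mul_sum]
    rw [Finset.sum_comm]
    refine Finset.sum_congr rfl fun a _ => ?_
    have hsum : ∀ m ∈ S, Summable (fun u : V2 k => c m / Real.sqrt (nS m) *
        if u ∈ Lb (ci a) (⊤ * f) ∧ u ∈ Fo k then
          phi k (sd f (em D)) (nf (ci a) ⊤ f (em b) (em D) u / nS m) *
            nu f m (ci a) ⊤ b (q4 (b ^ 2 + D)) u else 0) := by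
      intro m _
      exact (summ k hGRW hVKF hf hD hF hs (nS_pos k m) m a).mul_left _
    simp only [← tsum_mul_left]
    rw [← Summable.tsum_finsetSum hsum]
    refine tsum_congr fun u => ?_
    by_cases hu : u ∈ Lb (ci a) (⊤ * f) ∧ u ∈ Fo k
    · simp only [if_pos hu]
      rw [Finset.sum_div]
      refine Finset.sum_congr rfl fun m _ => ?_
      have hr : Real.sqrt (nS m) ≠ 0 := (Real.sqrt_pos.2 (nS_pos k m)).ne'
      unfold phi
      rw [Real.sqrt_div' _ (nS_pos k m).le, div_div]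
      have := term_eq (c := c m)
        (V := Vk k (nf (ci a) ⊤ f (em b) (em D) u / (nS m * sd f (em D))))
        (n := (nu f m (ci a) ⊤ b (q4 (b ^ 2 + D)) u : ℝ)) (q := 0)
        (s := Real.sqrt (nf (ci a) ⊤ f (em b) (em D) u)) hr
      rw [this]
      ring
    · simp only [if_neg hu, mul_zero, Finset.sum_const_zero]
  rw [hZ]
  exact Finset.sum_congr rfl fun m _ => by rw [key m]

end

end Pool.Agent.H75.NVK
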