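import Pool.Agent.H89.NV.TU2
import Pool.Agent.H60.CM4.FOR
import Pool.Agent.H77.CM4.CNTP
import Pool.Agent.H75.NVK.WC1

/-!
Translations of the forms do not change the central value of the Epstein zeta function; the roots
for a product of two ideals.
-/

set_option autoImplicit false
set_option linter.unusedSectionVars false

open MeasureTheory Set Filter NumberField NumberField.InfinitePlace
open scoped Real

namespace Pool.Agent.H75.NVK

open Pool.Agent.H65.CM4 Pool.Agent.H61.NVK Pool.Agent.H89.NV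

section

variable {k : Type} [Field k] [NumberField k] [IsTotallyReal k]

theorem em_add (x y : 𝓞 k) (v : Pl k) : em (x + y) v = em x v + em y v := by
  unfold Pool.Agent.H89.NV.em
  rw [show ((x + y : 𝓞 k) : k) = (x : k) + (y : k) from map_add (algebraMap (𝓞 k) k) x y, map_add]

theorem em_mul (x y : 𝓞 k) (v : Pl k) : em (x * y) v = em x v * em y v := by
  unfold Pool.Agent.H89.NV.em
  rw [show ((x * y : 𝓞 k) : k) = (x : k) * (y : k) from map_mul (algebraMap (𝓞 k) k) x y, map_mul]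

theorem em_sub (x y : 𝓞 k) (v : Pl k) : em (x - y) v = em x v - em y v := by
  unfold Pool.Agent.H89.NV.em
  rw [show ((x - y : 𝓞 k) : k) = (x : k) - (y : k) from map_sub (algebraMap (𝓞 k) k) x y, map_sub]

theorem em_two (v : Pl k) : em (2 : 𝓞 k) v = 2 := by
  unfold Pool.Agent.H89.NV.em
  rw [show ((2 : 𝓞 k) : k) = 2 from map_ofNat (algebraMap (𝓞 k) k) 2, map_ofNat]

theorem unit_sq (e : (𝓞 k)ˣ) : (∏ v : Pl k, em (e : 𝓞 k) v) ^ 2 = 1 := by
  have h1 : ∏ v : Pl k, |rv v (((e : 𝓞 k)) : k)| = 1 := by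
    rw [Pool.Agent.H77.CM4.ntp_prod]
    have h2 := (NumberField.isUnit_iff_norm (K := k) (x := (e : 𝓞 k))).1 e.isUnit
    have h3 : |(Algebra.norm ℚ (((e : 𝓞 k)) : k) : ℚ)| = 1 := h2
    rw [← Rat.cast_abs, h3]
    norm_num
  rw [← sq_abs, Finset.abs_prod]
  unfold Pool.Agent.H89.NV.em
  rw [h1, one_pow]

theorem qd_unit (β δ : Pl k → ℝ) (e : (𝓞 k)ˣ) (u : V2 k) :
    qd β δ ((e : 𝓞 k) • u) = qd β δ u := by
  have h1 : qd β δ ((e : 𝓞 k) • u) = ∏ v : Pl k, (em (e : 𝓞 k) v ^ 2 *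
      ((rv v (u.1 : k) + rv v (u.2 : k) * β v / 2) ^ 2 + δ v * rv v (u.2 : k) ^ 2 / 4)) := by
    unfold qd
    refine Finset.prod_congr rfl fun v _ => ?_
    have h2 : rv v ((((e : 𝓞 k) • u).1 : 𝓞 k) : k) = em (e : 𝓞 k) v * rv v (u.1 : k) :=
      em_mul (e : 𝓞 k) u.1 v
    have h3 : rv v ((((e : 𝓞 k) • u).2 : 𝓞 k) : k) = em (e : 𝓞 k) v * rv v (u.2 : k) :=
      em_mul (e : 𝓞 k) u.2 v
    rw [h2, h3]
    ring
  rw [h1, Finset.prod_mul_distrib, Finset.prod_pow, unit_sq, one_mul]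
  rfl

/-- the shear -/
noncomputable def shr (j : 𝓞 k) : V2 k ≃ₗ[𝓞 k] V2 k where
  toFun u := (u.1 - j * u.2, u.2)
  map_add' u v := by
    refine Prod.ext ?_ rfl
    show (u + v).1 - j * (u + v).2 = (u.1 - j * u.2) + (v.1 - j * v.2)
    rw [Prod.fst_add, Prod.snd_add]
    ring
  map_smul' c u := by
    refine Prod.ext ?_ rfl
    show (c • u).1 - j * (c • u).2 = c * (u.1 - j * u.2)
    rw [Prod.smul_fst, Prod.smul_snd, smul_eq_mul, smul_eq_mul]
    ring
  invFun u := (u.1 + j * u.2, u.2)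
  left_inv u := by simp
  right_inv u := by simp

theorem qd_shr (b j D : 𝓞 k) (u : V2 k) :
    qd (em (b + 2 * j)) (em D) (shr j u) = qd (em b) (em D) u := by
  unfold qd
  refine Finset.prod_congr rfl fun v _ => ?_
  have h1 : rv v (((shr j u).1 : 𝓞 k) : k) = em u.1 v - em j v * em u.2 v := by
    rw [← em_mul, ← em_sub]
    rfl
  have h2 : rv v (((shr j u).2 : 𝓞 k) : k) = em u.2 v := rfl
  have h3 : em (b + 2 * j) v = em b v + 2 * em j v := by rw [em_add, em_mul, em_two]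
  rw [h1, h2, h3]
  have h4 : rv v (u.1 : k) = em u.1 v := rfl
  have h5 : rv v (u.2 : k) = em u.2 v := rfl
  rw [h4, h5]
  ring

theorem map_shr {a B : Ideal (𝓞 k)} {j : 𝓞 k} (hj : j ∈ B) :
    (Lb a B).map (shr j : V2 k →ₗ[𝓞 k] V2 k) = Lb a B := by
  ext u
  rw [Submodule.mem_map_equiv]
  have h1 : (shr j).symm u = (u.1 + j * u.2, u.2) := rfl
  rw [h1]
  unfold Lb
  rw [Submodule.mem_prod, Submodule.mem_prod]
  simp only
  constructor
  · rintro ⟨h2, h3⟩
    refine ⟨?_, h3⟩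
    have h4 : j * u.2 ∈ a * B := by
      rw [mul_comm j]
      exact Ideal.mul_mem_mul h3 hj
    have h5 := Ideal.sub_mem _ h2 h4
    rwa [add_sub_cancel_right] at h5
  · rintro ⟨h2, h3⟩
    refine ⟨Ideal.add_mem _ h2 ?_, h3⟩
    rw [mul_comm j]
    exact Ideal.mul_mem_mul h3 hj

end

section

variable (k : Type) [Field k] [NumberField k] [IsTotallyReal k]

open Classical in
/-- sums over vectors of functions of the norm -/
theorem tsum_shear (a B : Ideal (𝓞 k)) (b j D : 𝓞 k) (hj : j ∈ B) (g : ℝ → ℝ) :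
    (∑' u : V2 k, if u ∈ Lb a B ∧ u ∈ Fo k then g (qd (em (b + 2 * j)) (em D) u) else 0) =
      ∑' u : V2 k, if u ∈ Lb a B ∧ u ∈ Fo k then g (qd (em b) (em D) u) else 0 := by
  have h1 := (Pool.Agent.H60.CM4.pf_FOR k).2 (shr j) (Lb a B)
    (fun u => ((g (qd (em (b + 2 * j)) (em D) u) : ℝ) : ℂ)) (fun e u => by rw [qd_unit])
  rw [map_shr hj] at h1
  simp only [qd_shr] at h1
  have h2 : ∀ F : V2 k → ℝ, (∑' u : V2 k, if u ∈ Lb a B ∧ u ∈ Fo k then ((F u : ℝ) : ℂ) else 0) =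
      ((∑' u : V2 k, if u ∈ Lb a B ∧ u ∈ Fo k then F u else 0 : ℝ) : ℂ) := by
    intro F
    rw [Complex.ofReal_tsum]
    refine tsum_congr fun u => ?_
    split_ifs <;> simp
  rw [h2, h2] at h1
  exact_mod_cast h1.symm

theorem zf_shear (A f : Ideal (𝓞 k)) (b j D : 𝓞 k) (hj : j ∈ A * f) :
    zf A f (em (b + 2 * j)) (em D) = zf A f (em b) (em D) := by
  classical
  unfold zf
  refine Finset.sum_congr rfl fun c _ => ?_
  exact tsum_shear k (ci c) (A * f) b j D hj (fun t =>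
    2 * Vk k (t / (nm (ci c) ^ 2 * nm f ^ 2 * nm A) * nm f / sD (em D)) /
      Real.sqrt (t / (nm (ci c) ^ 2 * nm f ^ 2 * nm A)))

end

end Pool.Agent.H75.NVK
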